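import Pool.Agent.Results.MP_0523aa_nt.HeightCount

namespace Pool.Agent.Variants.MP_0523aa_nt.MaxHeight

open Polynomial Pool.Agent.Results.MP_0523aa_nt.HeightCount

/-- The earlier hand-in (the question as posed), derived from the count by height. -/
theorem result (q b : ℕ) (hq : q.Prime) (hodd : Odd q) (hb : 0 < b) :
    IsGreatest {h : ℕ | ∃ f : ℤ[X], f ∣ X ^ (2 * q ^ b) - 1 ∧ height f = h} 2 := by
  have H := Pool.Agent.Results.MP_0523aa_nt.HeightCount.result q b hq hodd
  constructor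
  · refine Set.nonempty_of_encard_ne_zero (s := {f : ℤ[X] | f ∣ X ^ (2 * q ^ b) - 1 ∧ height f = 2}) ?_
    rw [H 2, if_neg (by norm_num), if_pos rfl, Nat.cast_ne_zero]
    have h1 : 2 ≤ 2 ^ b := by simpa using Nat.pow_le_pow_right two_pos hb
    have h2 : 4 * 1 * 3 ≤ 4 * (2 ^ b - 1) * (2 ^ (b + 1) - 1) :=
      Nat.mul_le_mul (Nat.mul_le_mul_left 4 (by omega)) (by rw [pow_succ]; omega)
    omega
  · rintro h ⟨f, hf⟩
    by_contra hh
    have h1 := H h
    rw [if_neg (by omega), if_neg (by omega), Nat.cast_zero, Set.encard_eq_zero] at h1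
    exact (Set.eq_empty_iff_forall_notMem.1 h1 f) hf

end Pool.Agent.Variants.MP_0523aa_nt.MaxHeight
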